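import Pool.Agent.Q271.CosetMain

set_option autoImplicit false

namespace Pool.Agent.Results.MP_ad5f6c_nt.CodimensionOne

open Q271.Coset MeasureTheory

/-- There are a non-singular `2 × 1` matrix `A` and an algebraic measure `μ` of codimension one
on `T ^ 2` with `μ (Bad A) > 0`. -/
theorem result : ∃ (A : Matrix (Fin 2) (Fin 1) ℝ) (μ : Measure (Fin 2 → UnitAddCircle)),
    ¬ Singular A ∧ IsAlgebraic (2 - 1) μ ∧ 0 < μ (Bad A) := by
  obtain ⟨A, hA, μ, hμ, halg, h⟩ := summary
  refine ⟨A, μ, hA, halg, ?_⟩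
  rw [h]
  norm_num

end Pool.Agent.Results.MP_ad5f6c_nt.CodimensionOne
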